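import Pool.Agent.Helper84.OB.Stmts

/-!
# Row MT
-/

set_option autoImplicit false

universe u

open Set Pool.Agent.Helper84.BT Pool.Agent.Helper84.OB
open scoped Matroid

namespace Pool.Agent.Helper32.OB

theorem st_MT (hMD : ST_MD.{u}) (hNU : ST_NU.{u}) : ST_MT.{u} := by
  intro α _ M X Y W₁ W₂ hT hX hY h1 hY1 hr1 h2 hY2 hr2
  have hV : M.IsFlat (W₁ ∩ W₂) := by
    rw [inter_eq_iInter]
    refine Matroid.IsFlat.iInter fun b => ?_
    cases b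
    · exact h2.1
    · exact h1.1
  refine ⟨cyc M (W₁ ∩ W₂), isCyclicFlat_cyc hV, IsCyclic.subset_cyc hY.isCyclic (subset_inter hY1 hY2),
    cyc_subset, ?_⟩
  have hmd := hMD α M hT X W₁ W₂ hX h1.1 h2.1
  have hnu := hNU α M (cyc M (W₁ ∩ W₂)) (W₁ ∩ W₂) hV.subset_ground Subset.rfl cyc_subset
  have a1 : rk M (X ∪ Y) ≤ rk M (X ∪ W₁ ∪ W₂) :=
    rk_mono M (union_subset (subset_union_left.trans subset_union_left)
      (hY1.trans (subset_union_right.trans subset_union_left)))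
  have a2 : rk M (X ∩ (W₁ ∩ W₂)) ≤
      rk M (X ∩ cyc M (W₁ ∩ W₂)) + ((W₁ ∩ W₂) \ cyc M (W₁ ∩ W₂)).ncard := by
    refine le_trans (rk_mono M ?_) (rk_union_le_add_ncard M _ _)
    intro x hx
    by_cases h : x ∈ cyc M (W₁ ∩ W₂)
    · exact Or.inl ⟨hx.1, h⟩
    · exact Or.inr ⟨hx.2, h⟩
  have a3 := Set.ncard_sdiff_add_ncard_of_subset (cyc_subset : cyc M (W₁ ∩ W₂) ⊆ W₁ ∩ W₂)
  have a4 : X ∩ W₁ ∩ W₂ = X ∩ (W₁ ∩ W₂) := inter_assoc _ _ _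
  rw [a4] at hmd
  omega

end Pool.Agent.Helper32.OB
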